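import Pool.Agent.W805.LR.Stm3
import Pool.Agent.W32.LR.TR
import Pool.Agent.W646.LR.PC
import Pool.Agent.W333.LR.PA

/-!
# LR3-CV: adding a weak mean-field rate
-/

set_option autoImplicit false

namespace Pool.Agent.W29.LR.CV

open Finset Equiv NormedSpace
open Pool.Agent.W805.LR Pool.Agent.W32.LR

section

variable {V : Type} [Fintype V] [DecidableEq V]

/-- the mean-field generator -/
noncomputable def BB (V : Type) [Fintype V] [DecidableEq V] :
    (Perm V → ℝ) →L[ℝ] (Perm V → ℝ) :=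
  gen (fun x y : V => if x ≠ y then 1 else 0)

lemma gen_apply (J : V → V → ℝ) (F : Perm V → ℝ) (g : Perm V) :
    gen J F g = ∑ x, ∑ y, J x y / 2 * F (g * swap x y) := by
  simp only [gen, _root_.sum_apply, Finset.sum_apply,
    _root_.smul_apply, Pi.smul_apply, smul_eq_mul, Rt_apply]

lemma gen_add (J : V → V → ℝ) (κ : ℝ) :
    gen (fun x y => J x y + if x ≠ y then κ else 0) = gen J + κ • BB V := by
  ext F g
  rw [_root_.add_apply, _root_.smul_apply, Pi.add_apply, Pi.smul_apply, BB, gen_apply,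
    gen_apply, gen_apply, smul_eq_mul, Finset.mul_sum, ← Finset.sum_add_distrib]
  refine Finset.sum_congr rfl fun x _ => ?_
  rw [Finset.mul_sum, ← Finset.sum_add_distrib]
  refine Finset.sum_congr rfl fun y _ => ?_
  split_ifs <;> ring

lemma BB_apply (F : Perm V → ℝ) (g : Perm V) :
    BB V F g = ∑ x, ∑ y, (if x ≠ y then 1 / 2 * F (g * swap x y) else 0) := by
  rw [BB, gen_apply]
  refine Finset.sum_congr rfl fun x _ => Finset.sum_congr rfl fun y _ => ?_
  split_ifs <;> ring

lemma BB_comm (p : Perm V) (F : Perm V → ℝ) : Rt p (BB V F) = BB V (Rt p F) := by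
  funext g
  rw [Rt_apply, BB_apply, BB_apply]
  rw [← Equiv.sum_comp p⁻¹]
  refine Finset.sum_congr rfl fun x _ => ?_
  rw [← Equiv.sum_comp p⁻¹]
  refine Finset.sum_congr rfl fun y _ => ?_
  rw [Rt_apply]
  have h1 : g * p * swap (p⁻¹ x) (p⁻¹ y) = g * swap x y * p := by
    rw [mul_assoc, mul_assoc, Equiv.swap_mul_eq_mul_swap]
  rw [h1]
  have h2 : (p⁻¹ x ≠ p⁻¹ y) ↔ x ≠ y := (p⁻¹).injective.ne_iff
  simp only [h2]

lemma comm (J : V → V → ℝ) : Commute (gen J) (BB V) := by
  ext F g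
  change gen J (BB V F) g = BB V (gen J F) g
  have h1 : gen J F = ∑ x, ∑ y, (J x y / 2) • Rt (swap x y) F := by
    simp only [gen, _root_.sum_apply, _root_.smul_apply]
  have h2 : gen J (BB V F) = ∑ x, ∑ y, (J x y / 2) • Rt (swap x y) (BB V F) := by
    simp only [gen, _root_.sum_apply, _root_.smul_apply]
  have h3 : BB V (gen J F) = ∑ x, ∑ y, (J x y / 2) • BB V (Rt (swap x y) F) := by
    rw [h1, map_sum (BB V)]
    refine Finset.sum_congr rfl fun x _ => ?_
    rw [map_sum (BB V)]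
    refine Finset.sum_congr rfl fun y _ => ?_
    rw [map_smul]
  have h4 : (∑ x, ∑ y, (J x y / 2) • BB V (Rt (swap x y) F) : Perm V → ℝ)
      = ∑ x, ∑ y, (J x y / 2) • Rt (swap x y) (BB V F) := by
    refine Finset.sum_congr rfl fun x _ => Finset.sum_congr rfl fun y _ => ?_
    rw [BB_comm]
  rw [h3, h2, h4]

/-- evaluation -/
noncomputable def evg (F : Perm V → ℝ) (g : Perm V) :
    ((Perm V → ℝ) →L[ℝ] (Perm V → ℝ)) →L[ℝ] ℝ :=
  (ContinuousLinearMap.proj (R := ℝ) (φ := fun _ : Perm V => ℝ) g).comp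
    (ContinuousLinearMap.apply ℝ (Perm V → ℝ) F)

lemma exp_hasSum (s : ℝ) (F : Perm V → ℝ) (g : Perm V) :
    HasSum (fun m : ℕ => s ^ m / (m.factorial : ℝ) * ((BB V) ^ m) F g)
      ((exp (s • BB V)) F g) := by
  have h1 : HasSum (fun m : ℕ => ((m.factorial : ℝ)⁻¹) • (s • BB V) ^ m) (exp (s • BB V)) := by
    have := (expSeries_summable' (𝕂 := ℝ) (s • BB V)).hasSum
    rwa [← congrFun (exp_eq_tsum (𝔸 := (Perm V → ℝ) →L[ℝ] (Perm V → ℝ)) ℝ) (s • BB V)] at this
  have h2 := (evg F g).hasSum h1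
  have h3 : (fun m : ℕ => s ^ m / (m.factorial : ℝ) * ((BB V) ^ m) F g)
      = fun m : ℕ => (evg F g) (((m.factorial : ℝ)⁻¹) • (s • BB V) ^ m) := by
    funext m
    rw [smul_pow, map_smul, map_smul]
    simp only [smul_eq_mul]
    change _ = ((m.factorial : ℝ))⁻¹ * (s ^ m * ((BB V) ^ m) F g)
    ring
  rw [h3]
  exact h2

lemma BB_nonneg (F : Perm V → ℝ) (hF : ∀ g, 0 ≤ F g) (g : Perm V) : 0 ≤ BB V F g := by
  rw [BB_apply]
  refine Finset.sum_nonneg fun x _ => Finset.sum_nonneg fun y _ => ?_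
  split_ifs
  · exact mul_nonneg (by norm_num) (hF _)
  · exact le_rfl

lemma pow_succ_apply (m : ℕ) (F : Perm V → ℝ) :
    ((BB V) ^ (m + 1)) F = BB V (((BB V) ^ m) F) := by
  rw [pow_succ']
  rfl

lemma BB_pow_nonneg (F : Perm V → ℝ) (hF : ∀ g, 0 ≤ F g) (m : ℕ) :
    ∀ g : Perm V, 0 ≤ ((BB V) ^ m) F g := by
  induction m with
  | zero => intro g; simpa using hF g
  | succ m ih =>
    intro g
    rw [pow_succ_apply]
    exact BB_nonneg _ ih g

lemma exp_lower (s : ℝ) (hs : 0 ≤ s) (F : Perm V → ℝ) (hF : ∀ g, 0 ≤ F g) (g : Perm V) :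
    F g + s * BB V F g ≤ (exp (s • BB V)) F g := by
  have h1 := exp_hasSum s F g
  have h2 := sum_le_hasSum (Finset.range 2) (fun m _ =>
    mul_nonneg (div_nonneg (pow_nonneg hs m) (Nat.cast_nonneg _)) (BB_pow_nonneg F hF m g)) h1
  rw [Finset.sum_range_succ, Finset.sum_range_one] at h2
  simpa using h2

lemma ringSum_nonneg (J : V → V → ℝ) (hJ : ∀ x y, 0 ≤ J x y) (m : ℕ) :
    ∀ g : Perm V, 0 ≤ ringSum J m g := by
  induction m with
  | zero =>
    intro g
    simp only [ringSum]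
    split_ifs <;> norm_num
  | succ m ih =>
    intro g
    simp only [ringSum]
    exact Finset.sum_nonneg fun x _ => Finset.sum_nonneg fun y _ =>
      mul_nonneg (div_nonneg (hJ x y) (by norm_num)) (ih _)

lemma stirMass_nonneg (J : V → V → ℝ) (hJ : ∀ x y, 0 ≤ J x y) (t : ℝ) (ht : 0 ≤ t)
    (g : Perm V) : 0 ≤ stirMass J t g :=
  tsum_nonneg fun m => mul_nonneg (div_nonneg (pow_nonneg ht m) (Nat.cast_nonneg _))
    (ringSum_nonneg J hJ m g)

lemma exp_split (J : V → V → ℝ) (t κ : ℝ) (F : Perm V → ℝ) :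
    (exp (t • gen (fun x y => J x y + if x ≠ y then κ else 0))) F 1
      = ∑ g, stirMass J t g * (exp ((t * κ) • BB V)) F g := by
  rw [sum_stirMass J t]
  have h1 : t • gen (fun x y => J x y + if x ≠ y then κ else 0)
      = t • gen J + (t * κ) • BB V := by
    rw [gen_add, smul_add, smul_smul]
  have h2 : Commute (t • gen J) ((t * κ) • BB V) :=
    ((comm J).smul_left t).smul_right (t * κ)
  let _ : NormedAlgebra ℚ ((Perm V → ℝ) →L[ℝ] (Perm V → ℝ)) :=
    NormedAlgebra.restrictScalars ℚ ℝ _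
  rw [h1, exp_add_of_commute h2]
  rfl

lemma single_shift (F : Perm V → ℝ) (g : Perm V) :
    ∑ h, F h * BB V (Pi.single g (1 : ℝ)) h
      = ∑ x, ∑ y, (if x ≠ y then 1 / 2 * F (swap x y * g) else 0) := by
  have h1 : ∀ h : Perm V, F h * BB V (Pi.single g (1 : ℝ)) h
      = ∑ x, ∑ y, (if x ≠ y then (if h = g * swap x y then 1 / 2 * F h else 0) else 0) := by
    intro h
    rw [BB_apply, Finset.mul_sum]
    refine Finset.sum_congr rfl fun x _ => ?_
    rw [Finset.mul_sum]
    refine Finset.sum_congr rfl fun y _ => ?_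
    have h2 : (h * swap x y = g) ↔ h = g * swap x y := by
      constructor
      · intro e
        rw [← e, mul_assoc, Equiv.swap_mul_self, mul_one]
      · intro e
        rw [e, mul_assoc, Equiv.swap_mul_self, mul_one]
    rw [Pi.single_apply]
    simp only [h2]
    split_ifs <;> ring
  rw [Finset.sum_congr rfl fun h _ => h1 h, Finset.sum_comm]
  have h3 : ∀ x y : V, ∑ h : Perm V, (if x ≠ y then (if h = g * swap x y then 1 / 2 * F h else 0)
      else 0) = if x ≠ y then 1 / 2 * F (g * swap x y) else 0 := by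
    intro x y
    split_ifs
    · rw [Finset.sum_ite_eq' Finset.univ (g * swap x y), if_pos (Finset.mem_univ _)]
    · exact Finset.sum_const_zero
  have h4 : ∀ x : V, ∑ h : Perm V, ∑ y, (if x ≠ y then
      (if h = g * swap x y then 1 / 2 * F h else 0) else 0)
      = ∑ y, if x ≠ y then 1 / 2 * F (g * swap x y) else 0 := by
    intro x
    rw [Finset.sum_comm]
    exact Finset.sum_congr rfl fun y _ => h3 x y
  rw [Finset.sum_congr rfl fun x _ => h4 x]
  conv_rhs => rw [← Equiv.sum_comp g]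
  refine Finset.sum_congr rfl fun x _ => ?_
  conv_rhs => rw [← Equiv.sum_comp g]
  refine Finset.sum_congr rfl fun y _ => ?_
  rw [Equiv.mul_swap_eq_swap_mul]
  simp only [g.injective.ne_iff]

lemma exp_upper (s : ℝ) (hs : 0 ≤ s) (F : Perm V → ℝ) (c : ℝ) (hc : 0 ≤ c)
    (hB : ∀ g, BB V F g ≤ c * F g) (g : Perm V) :
    (exp (s • BB V)) F g ≤ Real.exp (s * c) * F g := by
  have h1 : ∀ m : ℕ, ∀ g, ((BB V) ^ m) F g ≤ c ^ m * F g := by
    intro m
    induction m with
    | zero => intro g; simp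
    | succ m ih =>
      intro g
      rw [pow_succ_apply]
      have h2 : BB V (((BB V) ^ m) F) g ≤ BB V (c ^ m • F) g := by
        rw [BB_apply, BB_apply]
        refine Finset.sum_le_sum fun x _ => Finset.sum_le_sum fun y _ => ?_
        split_ifs
        · have := ih (g * swap x y)
          rw [Pi.smul_apply, smul_eq_mul]
          linarith
        · exact le_rfl
      refine h2.trans ?_
      rw [map_smul, Pi.smul_apply, smul_eq_mul, pow_succ, mul_assoc]
      exact mul_le_mul_of_nonneg_left (hB g) (pow_nonneg hc m)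
  have h2 := exp_hasSum s F g
  have h3 : HasSum (fun m : ℕ => (s * c) ^ m / (m.factorial : ℝ) * F g)
      (Real.exp (s * c) * F g) := by
    apply HasSum.mul_right
    rw [Real.exp_eq_exp_ℝ]
    exact NormedSpace.expSeries_div_hasSum_exp (s * c)
  refine hasSum_le (fun m => ?_) h2 h3
  rw [mul_pow, mul_div_right_comm, mul_assoc]
  exact mul_le_mul_of_nonneg_left (h1 m g) (div_nonneg (pow_nonneg hs m) (Nat.cast_nonneg _))

lemma cyc_bound (θ : ℝ) (hθ : 0 < θ) (g : Perm V) (x y : V) (hxy : x ≠ y) :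
    θ ^ cyc (g * swap x y) ≤ max θ θ⁻¹ * θ ^ cyc g := by
  rw [Equiv.mul_swap_eq_swap_mul]
  have hc := Pool.Agent.W646.LR.main_cyc Pool.Agent.W333.LR.main_merge
    Pool.Agent.W333.LR.main_split V g (g x) (g y)
  have hne : g x ≠ g y := g.injective.ne hxy
  by_cases h : g.SameCycle (g x) (g y)
  · rw [hc.1 h hne, pow_succ, mul_comm]
    exact mul_le_mul_of_nonneg_right (le_max_left _ _) (pow_nonneg hθ.le _)
  · rw [← hc.2 h, pow_succ]
    calc θ ^ cyc (swap (g x) (g y) * g) = θ⁻¹ * (θ ^ cyc (swap (g x) (g y) * g) * θ) := by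
          field_simp
      _ ≤ _ := mul_le_mul_of_nonneg_right (le_max_right _ _) (by positivity)

lemma BB_cyc (θ : ℝ) (hθ : 0 < θ) (g : Perm V) :
    BB V (fun g => θ ^ cyc g) g ≤
      (max θ θ⁻¹ * (Fintype.card V) ^ 2 / 2) * θ ^ cyc g := by
  rw [BB_apply]
  have h0 : 0 < max θ θ⁻¹ := lt_of_lt_of_le hθ (le_max_left _ _)
  have h1 : ∀ x y : V, (if x ≠ y then 1 / 2 * θ ^ cyc (g * swap x y) else 0)
      ≤ 1 / 2 * (max θ θ⁻¹ * θ ^ cyc g) := by
    intro x y
    split_ifs with h
    · exact mul_le_mul_of_nonneg_left (cyc_bound θ hθ g x y h) (by norm_num)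
    · positivity
  refine (Finset.sum_le_sum fun x _ => Finset.sum_le_sum fun y _ => h1 x y).trans ?_
  rw [Finset.sum_const, Finset.sum_const, Finset.card_univ, nsmul_eq_mul, nsmul_eq_mul]
  apply le_of_eq
  ring

end

theorem main : S_conv := by
  intro V _ _ J t κ θ hJ ht hκ hθ
  have hs : 0 ≤ t * κ := mul_nonneg ht hκ
  constructor
  · intro g
    rw [stirMass_eq (fun x y => J x y + if x ≠ y then κ else 0), exp_split]
    have h1 : ∀ h, 0 ≤ (Pi.single g (1 : ℝ) : Perm V → ℝ) h := by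
      intro h
      rw [Pi.single_apply]
      split_ifs <;> norm_num
    have h2 : ∀ h, stirMass J t h * ((Pi.single g (1 : ℝ) : Perm V → ℝ) h
        + t * κ * BB V (Pi.single g (1 : ℝ)) h)
        ≤ stirMass J t h * (exp ((t * κ) • BB V)) (Pi.single g (1 : ℝ)) h := fun h =>
      mul_le_mul_of_nonneg_left (exp_lower (t * κ) hs _ h1 h) (stirMass_nonneg J hJ t ht h)
    refine le_trans (le_of_eq ?_) (Finset.sum_le_sum fun h _ => h2 h)
    simp only [mul_add, Finset.sum_add_distrib]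
    congr 1
    · have h5 : ∀ h, stirMass J t h * (Pi.single g (1 : ℝ) : Perm V → ℝ) h
          = if h = g then stirMass J t h else 0 := by
        intro h
        rw [Pi.single_apply]
        split_ifs <;> ring
      rw [Finset.sum_congr rfl fun h _ => h5 h, Finset.sum_ite_eq' Finset.univ g,
        if_pos (Finset.mem_univ g)]
    · have h3 := single_shift (fun h => stirMass J t h) g
      have h4 : ∀ h, stirMass J t h * (t * κ * BB V (Pi.single g (1 : ℝ)) h)
          = t * κ * (stirMass J t h * BB V (Pi.single g (1 : ℝ)) h) := fun h => by ring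
      rw [Finset.sum_congr rfl fun h _ => h4 h, ← Finset.mul_sum, h3, Finset.mul_sum]
      refine Finset.sum_congr rfl fun x _ => ?_
      rw [Finset.mul_sum]
      refine Finset.sum_congr rfl fun y _ => ?_
      split_ifs <;> ring
  · rw [sum_stirMass, exp_split, Finset.mul_sum]
    refine Finset.sum_le_sum fun g _ => ?_
    have h0 : 0 < max θ θ⁻¹ := lt_of_lt_of_le hθ (le_max_left _ _)
    have h1 := exp_upper (t * κ) hs (fun g : Perm V => θ ^ cyc g)
      (max θ θ⁻¹ * (Fintype.card V) ^ 2 / 2) (by positivity)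
      (BB_cyc θ hθ) g
    have h2 : Real.exp (max θ θ⁻¹ * t * κ * (Fintype.card V) ^ 2 / 2)
        = Real.exp (t * κ * (max θ θ⁻¹ * (Fintype.card V) ^ 2 / 2)) := by
      congr 1
      ring
    rw [h2]
    calc stirMass J t g * (exp ((t * κ) • BB V)) (fun g => θ ^ cyc g) g
        ≤ stirMass J t g * (Real.exp (t * κ * (max θ θ⁻¹ * (Fintype.card V) ^ 2 / 2))
          * θ ^ cyc g) := mul_le_mul_of_nonneg_left h1 (stirMass_nonneg J hJ t ht g)
      _ = _ := by ring

end Pool.Agent.W29.LR.CV
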